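import Pool.Agent.helper60.DK.Spec

/-!
# Row dk:W14
-/

namespace Pool.Agent.helper60.DK

open Polynomial Finset

theorem W14_quarter {p : ℕ} [Fact p.Prime] (h5 : 5 ≤ p) :
    aeval (-1 / 2 : ZMod p) (X * (1 + X) : ℤ[X]) = -1 / 4 := by
  have h2 := two_ne (p := p) h5
  have h4 := four_ne (p := p) h5
  simp only [map_mul, map_add, aeval_X, map_one]
  field_simp
  ring

theorem W14_c0 {p : ℕ} [Fact p.Prime] (h5 : 5 ≤ p)
    (d0 : aeval (-1 / 2 : ZMod p) (Dz (nn p)) = 0) :
    aeval (-1 / 4 : ZMod p) (Cn (nn p)) = 0 := by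
  have h := congrArg (aeval (-1 / 2 : ZMod p)) (clausen (nn p))
  rw [aeval_comp, W14_quarter h5, map_pow, d0] at h
  rw [h]
  ring

theorem W14_c1 {p : ℕ} [Fact p.Prime] (h5 : 5 ≤ p)
    (d0 : aeval (-1 / 2 : ZMod p) (Dz (nn p)) = 0) :
    aeval (-1 / 4 : ZMod p) (derivative (Cn (nn p)))
      = (aeval (-1 / 2 : ZMod p) (derivative (Dz (nn p)))) ^ 2 := by
  have h2 := two_ne (p := p) h5
  have e0 := (comp_ders (Cn (nn p))).2.1
  rw [clausen (nn p)] at e0
  have e1 : derivative (derivative ((Dz (nn p)) ^ 2))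
      = 2 * (derivative (Dz (nn p))) ^ 2 + 2 * Dz (nn p) * derivative (derivative (Dz (nn p))) := by
    rw [pow_two, derivative_mul, derivative_add, derivative_mul, derivative_mul]
    ring
  rw [e1] at e0
  have e2 := congrArg (aeval (-1 / 2 : ZMod p)) e0
  simp only [map_add, map_mul, map_pow, aeval_comp, d0] at e2
  have q := W14_quarter (p := p) h5
  simp only [map_mul, map_add, aeval_X, map_one] at q
  simp only [aeval_X, map_one, map_ofNat, q] at e2
  have e3 : (1 + 2 * (-1 / 2) : ZMod p) = 0 := by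
    field_simp
    ring
  rw [e3] at e2
  apply mul_left_cancel₀ h2
  linear_combination -e2

theorem W14_term {p : ℕ} [Fact p.Prime] (h5 : 5 ≤ p) {k : ℕ} (hk : k ≤ hh p) :
    (-1 / 4 : ZMod p) * (1 + (-1 / 4)) * (bb p k * eval (-1 / 4 : ZMod p) (derivative (ff p k)))
      = (3 / 4) ^ (3 * hh p) * ((9 / 4) * ((k : ZMod p) * (((cc (nn p) k : ℤ) : ZMod p) * (-1 / 4) ^ k))
          + (3 / 8) * (((cc (nn p) k : ℤ) : ZMod p) * (-1 / 4) ^ k)) := by
  have h2 := two_ne (p := p) h5
  have h4 := four_ne (p := p) h5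
  have h8 : (8 : ZMod p) ≠ 0 := by
    have : (8 : ZMod p) = 2 * 4 := by norm_num
    rw [this]; exact mul_ne_zero h2 h4
  have h16 : (16 : ZMod p) ≠ 0 := by
    have : (16 : ZMod p) = 4 * 4 := by norm_num
    rw [this]; exact mul_ne_zero h4 h4
  have h := congrArg (eval (-1 / 4 : ZMod p)) (ff_ld (p := p) h5 hk)
  simp only [eval_mul, eval_add, eval_sub, eval_X, eval_one, eval_C, eval_ofNat, eval_neg] at h
  have hν := two_nu (p := p) h5 k
  have e34 : (1 + (-1 / 4) : ZMod p) = 3 / 4 := by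
    field_simp
    ring
  -- the value of `ff`
  have hf : bb p k * eval (-1 / 4 : ZMod p) (ff p k)
      = (3 / 4) ^ (3 * hh p) * (((cc (nn p) k : ℤ) : ZMod p) * (-1 / 4) ^ k) := by
    unfold bb ff
    simp only [eval_mul, eval_pow, eval_X, eval_add, eval_one]
    rw [e34]
    have e1 : 3 * hh p = 3 * (hh p - k) + 3 * k := by omega
    rw [e1, pow_add]
    have e1' : 3 * (hh p - k) + 3 * k - 3 * k = 3 * (hh p - k) := by omega
    have e2 : (-27 / 16 : ZMod p) ^ k * (-1 / 4) ^ (2 * k) = (3 / 4) ^ (3 * k) * (-1 / 4) ^ k := by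
      rw [pow_mul, pow_mul, ← mul_pow, ← mul_pow]
      congr 1
      field_simp
      ring
    linear_combination (((cc (nn p) k : ℤ) : ZMod p) * (3 / 4) ^ (3 * (hh p - k))) * e2
  have hbr : ((2 * nu p k - 1) * (1 + (-1 / 4)) + -(3 : ZMod p) * nu p k * (-1 / 4))
      = (9 / 4) * (k : ZMod p) + 3 / 8 := by
    rw [e34]
    have e5 : (3 / 4 : ZMod p) * 2 = 3 / 2 := by field_simp; ring
    have hn : nu p k = (k : ZMod p) + 1 / 2 := by
      apply mul_left_cancel₀ h2
      rw [hν]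
      field_simp
    rw [hn]
    field_simp
    ring
  have h' : (-1 / 4 : ZMod p) * (1 + (-1 / 4)) * eval (-1 / 4 : ZMod p) (derivative (ff p k))
      = ((9 / 4) * (k : ZMod p) + 3 / 8) * eval (-1 / 4 : ZMod p) (ff p k) := by
    rw [← hbr]
    linear_combination h
  linear_combination bb p k * h' + ((9 / 4) * (k : ZMod p) + 3 / 8) * hf

theorem W14 (h : HALF_stmt) : W14_stmt := by
  intro p hp h5 h3
  have hodd := p_odd (p := p) h5
  have hn1 : nn p % 2 = 1 := by unfold nn; omega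
  have hn2 : nn p < p := by unfold nn; omega
  obtain ⟨d0, d1⟩ := h p (ZMod p) h5 (nn p) hn1 hn2
  have h2 := two_ne (p := p) h5
  have h3n := three_ne (p := p) h5
  have h4 := four_ne (p := p) h5
  have c0 := W14_c0 h5 d0
  have c1 := W14_c1 h5 d0
  have s0 : ∑ k ∈ range (nn p + 1), (((cc (nn p) k : ℤ) : ZMod p) * (-1 / 4) ^ k) = 0 := by
    rw [← c0]
    unfold Cn
    rw [map_sum]
    apply sum_congr rfl
    intro k _
    simp
  have s1 : ∑ k ∈ range (nn p + 1), ((k : ZMod p) * (((cc (nn p) k : ℤ) : ZMod p) * (-1 / 4) ^ k))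
      = (-1 / 4) * (aeval (-1 / 2 : ZMod p) (derivative (Dz (nn p)))) ^ 2 := by
    rw [← c1]
    unfold Cn
    rw [derivative_sum, map_sum, mul_sum]
    apply sum_congr rfl
    intro k _
    cases k with
    | zero => simp
    | succ k =>
      simp only [derivative_C_mul_X_pow, Nat.add_sub_cancel]
      simp only [map_mul, map_natCast, map_pow, aeval_X, Nat.cast_add, Nat.cast_one, map_add,
        map_one, eq_intCast, map_intCast]
      rw [pow_succ]
      ring
  intro h0
  rw [S_eq_W h5] at h0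
  have hsum : (-1 / 4 : ZMod p) * (1 + (-1 / 4)) * eval (-1 / 4 : ZMod p) (derivative (Wp p))
      = (3 / 4) ^ (3 * hh p) * ((9 / 4)
          * ((-1 / 4) * (aeval (-1 / 2 : ZMod p) (derivative (Dz (nn p)))) ^ 2) + (3 / 8) * 0) := by
    rw [← s1, ← s0, mul_sum, mul_sum, ← sum_add_distrib, mul_sum]
    unfold Wp
    rw [derivative_sum, eval_finset_sum, mul_sum]
    apply sum_congr rfl
    intro k hk
    have h1 := nn_lt_hh (p := p) h5
    have h2' := mem_range.mp hk
    rw [derivative_C_mul, eval_mul, eval_C]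
    exact W14_term h5 (by omega)
  rw [h0, mul_zero, mul_zero, add_zero] at hsum
  have hne : (3 / 4 : ZMod p) ^ (3 * hh p) * ((9 / 4)
      * ((-1 / 4) * (aeval (-1 / 2 : ZMod p) (derivative (Dz (nn p)))) ^ 2)) ≠ 0 := by
    apply mul_ne_zero (pow_ne_zero _ (div_ne_zero h3n h4))
    apply mul_ne_zero
    · have : (9 : ZMod p) = 3 * 3 := by norm_num
      rw [this]
      exact div_ne_zero (mul_ne_zero h3n h3n) h4
    · apply mul_ne_zero
      · exact div_ne_zero (neg_ne_zero.mpr one_ne_zero) h4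
      · exact pow_ne_zero _ d1
  exact hne hsum.symm

end Pool.Agent.helper60.DK
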